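import Pool.Agent.W186.AI.Spec

set_option autoImplicit false

/-! # AI-EXT: for large `a` the zero `τ n a` is the fixed point -/

namespace Pool.Agent.W966.AI.EXT

open Complex Filter Topology Metric Set
open scoped Real
open Pool.Agent.W186.AI

theorem ell_diff (hg : S_GAM) (hz : S_ZET) : DifferentiableOn ℂ ell {s : ℂ | 1 < s.re} := by
  have h := hg.1.add hz.1
  exact h

theorem ell_hasDeriv (hg : S_GAM) (hz : S_ZET) (s : ℂ) (hs : 1 < s.re) :
    HasDerivAt ell (deriv ell s) s := by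
  have ho : IsOpen {s : ℂ | 1 < s.re} := isOpen_lt continuous_const Complex.continuous_re
  exact ((ell_diff hg hz).differentiableAt (ho.mem_nhds hs)).hasDerivAt

theorem ell_conj (hg : S_GAM) (hz : S_ZET) (s : ℂ) (hs : 1 < s.re) :
    ell ((starRingEnd ℂ) s) = (starRingEnd ℂ) (ell s) := by
  unfold ell
  rw [hg.2.2 s hs, hz.2.2.1 s hs, map_add]

theorem GG_conj (hg : S_GAM) (hz : S_ZET) (a : ℝ) (ha : 10 ≤ a) (t : ℂ) (ht : ‖t‖ < 1) :
    GG (a : ℂ) ((starRingEnd ℂ) t) = (starRingEnd ℂ) (GG (a : ℂ) t) := by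
  have him : |t.im| < 1 := (Complex.abs_im_le_norm t).trans_lt ht
  have h1 := abs_lt.1 him
  have hs1 : 1 < (1 / 2 + (a : ℂ) + I * t).re := by
    simp; norm_num; linarith [h1.1, h1.2]
  have hs2 : 1 < (1 / 2 + (a : ℂ) - I * t).re := by
    simp; norm_num; linarith [h1.1, h1.2]
  have h2 : (starRingEnd ℂ) (2 : ℂ) = 2 := map_ofNat _ 2
  have e1 : (starRingEnd ℂ) (1 / 2 + (a : ℂ) + I * t) = 1 / 2 + (a : ℂ) - I * (starRingEnd ℂ) t := by
    rw [map_add, map_add, map_div₀, map_one, h2, map_mul, Complex.conj_I, Complex.conj_ofReal]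
    ring
  have e2 : (starRingEnd ℂ) (1 / 2 + (a : ℂ) - I * t) = 1 / 2 + (a : ℂ) + I * (starRingEnd ℂ) t := by
    rw [map_sub, map_add, map_div₀, map_one, h2, map_mul, Complex.conj_I, Complex.conj_ofReal]
    ring
  unfold GG
  rw [map_div₀, map_sub, ← ell_conj hg hz _ hs1, ← ell_conj hg hz _ hs2, e1, e2, map_mul,
    Complex.conj_I]
  rw [h2]
  have hI : (I : ℂ) ≠ 0 := Complex.I_ne_zero
  field_simp
  ring

theorem GG_hasDeriv (hg : S_GAM) (hz : S_ZET) (a : ℝ) (ha : 10 ≤ a) (r : ℝ) :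
    HasDerivAt (fun r : ℝ => (GG (a : ℂ) (r : ℂ)).re)
      (((deriv ell (1 / 2 + (a : ℂ) + I * (r : ℂ)) + deriv ell (1 / 2 + (a : ℂ) - I * (r : ℂ))) / 2).re)
      r := by
  have hs1 : 1 < (1 / 2 + (a : ℂ) + I * (r : ℂ)).re := by
    simp; norm_num; linarith
  have hs2 : 1 < (1 / 2 + (a : ℂ) - I * (r : ℂ)).re := by
    simp; norm_num; linarith
  have d1 : HasDerivAt (fun t : ℂ => 1 / 2 + (a : ℂ) + I * t) I (r : ℂ) := by
    have := ((hasDerivAt_id (r : ℂ)).const_mul I).const_add (1 / 2 + (a : ℂ))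
    simpa using this
  have d2 : HasDerivAt (fun t : ℂ => 1 / 2 + (a : ℂ) - I * t) (-I) (r : ℂ) := by
    have := ((hasDerivAt_id (r : ℂ)).const_mul I).const_sub (1 / 2 + (a : ℂ))
    simpa using this
  have c1 := (ell_hasDeriv hg hz _ hs1).comp (r : ℂ) d1
  have c2 := (ell_hasDeriv hg hz _ hs2).comp (r : ℂ) d2
  have c3 := (c1.sub c2).div_const (2 * I)
  have c4 := c3.real_of_complex
  have hI : (I : ℂ) ≠ 0 := Complex.I_ne_zero
  have e : (deriv ell (1 / 2 + (a : ℂ) + I * (r : ℂ)) * I -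
      deriv ell (1 / 2 + (a : ℂ) - I * (r : ℂ)) * -I) / (2 * I) =
      (deriv ell (1 / 2 + (a : ℂ) + I * (r : ℂ)) + deriv ell (1 / 2 + (a : ℂ) - I * (r : ℂ))) / 2 := by
    field_simp
    ring
  rw [e] at c4
  exact c4

theorem GG_mono (hg : S_GAM) (hz : S_ZET) (hm : S_MON) (a : ℝ) (ha : 10 ≤ a) :
    StrictMono (fun r : ℝ => (GG (a : ℂ) (r : ℂ)).re) := by
  apply strictMono_of_deriv_pos
  intro r
  rw [(GG_hasDeriv hg hz a ha r).deriv]
  have hs1 : 1 < (1 / 2 + (a : ℂ) + I * (r : ℂ)).re := by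
    simp; norm_num; linarith
  have hs2 : 1 < (1 / 2 + (a : ℂ) - I * (r : ℂ)).re := by
    simp; norm_num; linarith
  have h1 := hm _ hs1
  have h2 := hm _ hs2
  have e : ((deriv ell (1 / 2 + (a : ℂ) + I * (r : ℂ)) +
      deriv ell (1 / 2 + (a : ℂ) - I * (r : ℂ))) / 2).re =
      ((deriv ell (1 / 2 + (a : ℂ) + I * (r : ℂ))).re +
      (deriv ell (1 / 2 + (a : ℂ) - I * (r : ℂ))).re) / 2 := by
    have h3 : (2 : ℂ) = ((2 : ℝ) : ℂ) := by norm_num
    rw [h3, Complex.div_ofReal_re, Complex.add_re]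
  rw [e]
  linarith

theorem main (hf : S_FPL) (hg : S_GAM) (hz : S_ZET) (hm : S_MON) (hl : S_LAM) (hh : S_HGD) :
    S_EXT := by
  intro τ hτ n
  obtain ⟨C, hC1, hgood, -, -⟩ := hh
  have hy' : 0 < yy n := by unfold yy; positivity
  have hy : 0 ≤ yy n := hy'.le
  obtain ⟨x0, hx0, hx⟩ := hl.2.1 (2 * (C + yy n))
  refine ⟨x0, hx0, fun a ha => ?_⟩
  have ha10 : (10 : ℝ) ≤ a := hx0.trans ha
  have hM1 : 1 ≤ C + yy n := by linarith
  have hG : Good (C + yy n) (fun t => ((yy n : ℝ) : ℂ) - Hh (a : ℂ) t) := by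
    obtain ⟨h1, h2⟩ := hgood (a : ℂ) (by simpa using ha10)
    refine ⟨fun t ht => ?_, fun t ht u hu => ?_⟩
    · calc ‖((yy n : ℝ) : ℂ) - Hh (a : ℂ) t‖ ≤ ‖((yy n : ℝ) : ℂ)‖ + ‖Hh (a : ℂ) t‖ :=
            norm_sub_le _ _
        _ ≤ yy n + C := by
          apply add_le_add
          · rw [Complex.norm_real, Real.norm_of_nonneg hy]
          · exact h1 t ht
        _ = C + yy n := by ring
    · calc ‖((yy n : ℝ) : ℂ) - Hh (a : ℂ) t - (((yy n : ℝ) : ℂ) - Hh (a : ℂ) u)‖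
          = ‖Hh (a : ℂ) t - Hh (a : ℂ) u‖ := by
            rw [← norm_neg]
            congr 1
            ring
        _ ≤ C * ‖t - u‖ := h2 t ht u hu
        _ ≤ (C + yy n) * ‖t - u‖ := by
            apply mul_le_mul_of_nonneg_right _ (norm_nonneg _)
            linarith
  have hLa := hx (a : ℂ) (by simpa using ha)
  have hLa0 : La (a : ℂ) ≠ 0 := by
    intro h
    rw [h, norm_zero] at hLa
    linarith
  have hw : ‖(La (a : ℂ))⁻¹‖ * (2 * (C + yy n)) ≤ 1 := by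
    rw [norm_inv]
    have h3 : 0 < ‖La (a : ℂ)‖ := norm_pos_iff.2 hLa0
    rw [inv_mul_le_iff₀ h3, mul_one]
    exact hLa
  obtain ⟨hn, he, hu, -, -⟩ := hf (C + yy n) _ _ hM1 hG hw
  generalize fp (fun t => ((yy n : ℝ) : ℂ) - Hh (a : ℂ) t) (La (a : ℂ))⁻¹ = t0 at hn he hu ⊢
  have hn1 : ‖t0‖ < 1 := by linarith
  -- fixed points are the solutions of `GG a t = yy n`
  have key : ∀ t : ℂ, GG (a : ℂ) t = ((yy n : ℝ) : ℂ) →
      t = (La (a : ℂ))⁻¹ * (((yy n : ℝ) : ℂ) - Hh (a : ℂ) t) := by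
    intro t ht
    unfold Hh
    rw [ht]
    field_simp
    ring
  have hGG : GG (a : ℂ) t0 = ((yy n : ℝ) : ℂ) := by
    have h4 : La (a : ℂ) * t0 = ((yy n : ℝ) : ℂ) - Hh (a : ℂ) t0 := by
      have h5 : La (a : ℂ) * t0 =
          La (a : ℂ) * ((La (a : ℂ))⁻¹ * (((yy n : ℝ) : ℂ) - Hh (a : ℂ) t0)) := by
        exact congrArg (fun z => La (a : ℂ) * z) he
      rw [h5, ← mul_assoc, mul_inv_cancel₀ hLa0, one_mul]
    unfold Hh at h4
    linear_combination h4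
  have hconj : (starRingEnd ℂ) t0 = t0 := by
    apply hu
    · rw [Complex.norm_conj]; exact hn1
    · apply key
      rw [GG_conj hg hz a ha10 t0 hn1, hGG, Complex.conj_ofReal]
  obtain ⟨r, hr⟩ := Complex.conj_eq_iff_real.1 hconj
  subst hr
  have hpos : 0 < r := by
    have h6 : GG (a : ℂ) ((0 : ℝ) : ℂ) = 0 := by
      unfold GG
      simp
    by_contra hneg
    have h7 := (GG_mono hg hz hm a ha10).monotone (not_lt.1 hneg)
    have h8 : (GG (a : ℂ) (r : ℂ)).re ≤ (GG (a : ℂ) ((0 : ℝ) : ℂ)).re := h7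
    rw [hGG, h6, Complex.ofReal_re, Complex.zero_re] at h8
    linarith
  rw [hτ.2.1 n a r (by linarith) hpos hGG]

end Pool.Agent.W966.AI.EXT
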